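import Mathlib
import Pool.Agent.W560.HP.Stm

set_option autoImplicit false

namespace Pool.Agent.W392.HP

open W560.HP

theorem hom_eval {k Q σ : Type} [Field k] [Field Q] [Algebra k Q] (y : σ → Q)
    (A : MvPolynomial σ k) (e : ℕ) (hA : A.IsHomogeneous e) :
    MvPolynomial.aeval (fun j => (Polynomial.C (y j) * Polynomial.X : Polynomial Q)) A
      = Polynomial.C (MvPolynomial.aeval y A) * Polynomial.X ^ e := by
  classical
  rw [MvPolynomial.aeval_def, MvPolynomial.aeval_def, MvPolynomial.eval₂_eq,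
    MvPolynomial.eval₂_eq, map_sum, Finset.sum_mul]
  refine Finset.sum_congr rfl fun m hm => ?_
  have hdeg : ∑ i ∈ m.support, m i = e := by
    have h := hA (MvPolynomial.mem_support_iff.mp hm)
    rw [Finsupp.weight_apply, Finsupp.sum] at h
    simpa using h
  rw [map_mul, map_prod, ← hdeg, ← Finset.prod_pow_eq_pow_sum, mul_assoc,
    ← Finset.prod_mul_distrib]
  congr 1
  refine Finset.prod_congr rfl fun i _ => ?_
  rw [mul_pow, map_pow]

/-- ratio of values of homogeneous polynomials of the same degree -/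
def Good (k : Type) {Q σ : Type} [Field k] [Field Q] [Algebra k Q] (y : σ → Q) (x : Q) : Prop :=
  ∃ (e : ℕ) (A B : MvPolynomial σ k), A.IsHomogeneous e ∧ B.IsHomogeneous e ∧
    MvPolynomial.aeval y B ≠ 0 ∧ x * MvPolynomial.aeval y B = MvPolynomial.aeval y A

theorem good_of_mem {k Q σ : Type} [Field k] [Field Q] [Algebra k Q] (y : σ → Q) (x : Q)
    (hx : x ∈ ratioField k y) : Good k y x := by
  unfold ratioField at hx
  induction hx using IntermediateField.adjoin_induction with
  | mem x hx =>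
    obtain ⟨i, j, rfl⟩ := hx
    by_cases hj : y j = 0
    · refine ⟨0, 0, 1, MvPolynomial.isHomogeneous_zero _ _ _, MvPolynomial.isHomogeneous_one _ _,
        by simp, by simp [hj]⟩
    · refine ⟨1, MvPolynomial.X i, MvPolynomial.X j, MvPolynomial.isHomogeneous_X _ _,
        MvPolynomial.isHomogeneous_X _ _, by simpa using hj, ?_⟩
      simp [hj]
  | algebraMap a =>
    exact ⟨0, MvPolynomial.C a, 1, MvPolynomial.isHomogeneous_C _ _,
      MvPolynomial.isHomogeneous_one _ _, by simp, by simp⟩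
  | add x z _ _ h1 h2 =>
    obtain ⟨e, A, B, hA, hB, hB0, h⟩ := h1
    obtain ⟨e', A', B', hA', hB', hB0', h'⟩ := h2
    refine ⟨e + e', A * B' + B * A', B * B', (hA.mul hB').add (hB.mul hA'), hB.mul hB', ?_, ?_⟩
    · rw [map_mul]; exact mul_ne_zero hB0 hB0'
    · rw [map_mul, map_add, map_mul, map_mul, ← h, ← h']; ring
  | inv x _ h1 =>
    obtain ⟨e, A, B, hA, hB, hB0, h⟩ := h1
    by_cases hx0 : x = 0
    · refine ⟨0, 0, 1, MvPolynomial.isHomogeneous_zero _ _ _, MvPolynomial.isHomogeneous_one _ _,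
        by simp, by simp [hx0]⟩
    · refine ⟨e, B, A, hB, hA, ?_, ?_⟩
      · rw [← h]; exact mul_ne_zero hx0 hB0
      · rw [← h]; field_simp
  | mul x z _ _ h1 h2 =>
    obtain ⟨e, A, B, hA, hB, hB0, h⟩ := h1
    obtain ⟨e', A', B', hA', hB', hB0', h'⟩ := h2
    refine ⟨e + e', A * A', B * B', hA.mul hA', hB.mul hB', ?_, ?_⟩
    · rw [map_mul]; exact mul_ne_zero hB0 hB0'
    · rw [map_mul, map_mul, ← h, ← h']; ring

theorem common {k Q σ : Type} [Field k] [Field Q] [Algebra k Q] (y : σ → Q) (c : ℕ → Q)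
    (hc : ∀ n, Good k y (c n)) (N : ℕ) :
    ∃ (e : ℕ) (B : MvPolynomial σ k), B.IsHomogeneous e ∧ MvPolynomial.aeval y B ≠ 0 ∧
      ∀ n < N, ∃ A : MvPolynomial σ k, A.IsHomogeneous e ∧
        c n * MvPolynomial.aeval y B = MvPolynomial.aeval y A := by
  induction N with
  | zero => exact ⟨0, 1, MvPolynomial.isHomogeneous_one _ _, by simp, fun n hn => by omega⟩
  | succ N ih =>
    obtain ⟨e, B, hB, hB0, h⟩ := ih
    obtain ⟨e', A', B', hA', hB', hB0', h'⟩ := hc N
    refine ⟨e + e', B * B', hB.mul hB', ?_, fun n hn => ?_⟩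
    · rw [map_mul]; exact mul_ne_zero hB0 hB0'
    · rcases Nat.lt_succ_iff_lt_or_eq.mp hn with h1 | h1
      · obtain ⟨A, hA, hAe⟩ := h n h1
        refine ⟨A * B', hA.mul hB', ?_⟩
        rw [map_mul, map_mul, ← hAe]; ring
      · subst h1
        refine ⟨B * A', hB.mul hA', ?_⟩
        rw [map_mul, map_mul, ← h']; ring

theorem rat : S_RAT := by
  intro k Q σ _ _ _ _ d F y hF hy i hi halg
  obtain ⟨p, hp0, hp⟩ := halg
  set N := p.natDegree + 1 with hN
  obtain ⟨e, B, hB, hB0, h⟩ := common (k := k) y (fun n => ((p.coeff n : ratioField k y) : Q))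
    (fun n => good_of_mem y _ (p.coeff n).2) N
  choose! A hA hAe using h
  set G : MvPolynomial σ k := ∑ n ∈ Finset.range N, A n * MvPolynomial.X i ^ n with hG
  have hsum : ∑ n ∈ Finset.range N, ((p.coeff n : ratioField k y) : Q) * y i ^ n = 0 := by
    rw [Polynomial.aeval_eq_sum_range] at hp
    rw [← hp]
    refine Finset.sum_congr rfl fun n _ => ?_
    rw [Algebra.smul_def]
    rfl
  have hGy : MvPolynomial.aeval y G = 0 := by
    rw [hG, map_sum]
    have : ∀ n ∈ Finset.range N, MvPolynomial.aeval y (A n * MvPolynomial.X i ^ n)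
        = MvPolynomial.aeval y B * (((p.coeff n : ratioField k y) : Q) * y i ^ n) := by
      intro n hn
      rw [map_mul, map_pow, MvPolynomial.aeval_X, ← hAe n (Finset.mem_range.mp hn)]
      ring
    rw [Finset.sum_congr rfl this, ← Finset.mul_sum, hsum, mul_zero]
  have hFG : F ∣ G := (hy G).mp hGy
  have hF0 : MvPolynomial.aeval y F = 0 := (hy F).mpr dvd_rfl
  have hψG : MvPolynomial.aeval (fun j => (Polynomial.C (y j) * Polynomial.X : Polynomial Q)) G
      = 0 := by
    obtain ⟨H, hH⟩ := hFG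
    rw [hH, map_mul, hom_eval y F d hF, hF0]
    simp
  have hψG2 : ∑ n ∈ Finset.range N, Polynomial.C (MvPolynomial.aeval y (A n) * y i ^ n) *
      (Polynomial.X : Polynomial Q) ^ (e + n) = 0 := by
    rw [← hψG, hG, map_sum]
    refine Finset.sum_congr rfl fun n hn => ?_
    rw [hom_eval y _ (e + n * 1) ((hA n (Finset.mem_range.mp hn)).mul
      ((MvPolynomial.isHomogeneous_X _ i).pow n |> fun h => by simpa [mul_comm] using h))]
    rw [map_mul (MvPolynomial.aeval y), map_pow (MvPolynomial.aeval y), MvPolynomial.aeval_X, mul_one]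
  apply hp0
  refine Polynomial.ext fun n => ?_
  rw [Polynomial.coeff_zero]
  by_cases hn : n < N
  · have h1 := congrArg (fun q => Polynomial.coeff q (e + n)) hψG2
    simp only [Polynomial.finsetSum_coeff, Polynomial.coeff_C_mul, Polynomial.coeff_X_pow,
      Polynomial.coeff_zero] at h1
    rw [Finset.sum_eq_single n] at h1
    · simp only [if_true, mul_one] at h1
      have h2 : MvPolynomial.aeval y (A n) = 0 :=
        (mul_eq_zero.mp h1).resolve_right (pow_ne_zero _ hi)
      rw [← hAe n hn] at h2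
      have h3 := (mul_eq_zero.mp h2).resolve_right hB0
      exact Subtype.ext h3
    · intro b _ hb
      rw [if_neg (by omega), mul_zero]
    · intro h2
      exact absurd (Finset.mem_range.mpr hn) h2
  · exact Polynomial.coeff_eq_zero_of_natDegree_lt (by omega)

end Pool.Agent.W392.HP
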